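import Pool.Agent.Q2.TMO.Pair
import Pool.Agent.Q2.TMO.GK

namespace Pool.Agent.Results.MP_ee6fb2_al.TwistedMultiplicityOne

open Matrix Module

/-- The matrix, in the `F`-basis `b` of `E^n`, of the `E`-linear map of `E^n` given by `X`: its
`j`-th column consists of the coordinates of `X b_j`. -/
noncomputable def mat {F E : Type*} [Field F] [Field E] [Algebra F E] {n : ℕ}
    (b : Basis (Fin (2 * n)) F (Fin n → E)) (X : Matrix (Fin n) (Fin n) E) :
    Matrix (Fin (2 * n)) (Fin (2 * n)) F :=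
  fun i j => b.repr (X.mulVec (b j)) i

theorem mat_eq {F E : Type*} [Field F] [Field E] [Algebra F E] {n : ℕ}
    (b : Basis (Fin (2 * n)) F (Fin n → E)) (X : Matrix (Fin n) (Fin n) E) :
    mat b X = LinearMap.toMatrix b b ((Matrix.toLin' X).restrictScalars F) := by
  ext i j
  rw [LinearMap.toMatrix_apply]
  rfl

theorem mat_one {F E : Type*} [Field F] [Field E] [Algebra F E] {n : ℕ}
    (b : Basis (Fin (2 * n)) F (Fin n → E)) : mat b 1 = 1 := by
  rw [mat_eq, Matrix.toLin'_one]
  exact LinearMap.toMatrix_one b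

theorem mat_mul {F E : Type*} [Field F] [Field E] [Algebra F E] {n : ℕ}
    (b : Basis (Fin (2 * n)) F (Fin n → E)) (X Y : Matrix (Fin n) (Fin n) E) :
    mat b (X * Y) = mat b X * mat b Y := by
  rw [mat_eq, mat_eq, mat_eq, Matrix.toLin'_mul, ← LinearMap.toMatrix_mul]
  rfl

/-- `mat b` as a multiplicative map. -/
noncomputable def matHom {F E : Type*} [Field F] [Field E] [Algebra F E] {n : ℕ}
    (b : Basis (Fin (2 * n)) F (Fin n → E)) :
    Matrix (Fin n) (Fin n) E →* Matrix (Fin (2 * n)) (Fin (2 * n)) F :=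
  MonoidHom.mk ⟨mat b, mat_one b⟩ (mat_mul b)

/-- The embedding `GL_n(E) → GL_{2n}(F)` attached to an `F`-basis `b` of `E^n`: an `E`-linear
automorphism of `E^n` is sent to its matrix, as an `F`-linear map, in the basis `b`. -/
noncomputable def emb {F E : Type*} [Field F] [Field E] [Algebra F E] {n : ℕ}
    (b : Basis (Fin (2 * n)) F (Fin n → E)) : GL (Fin n) E →* GL (Fin (2 * n)) F :=
  Units.map (matHom b)

/-- The operator `π(h)` of `h ∈ GL_n(E)`, embedded in `GL_{2n}(F)` by `emb b`. -/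
noncomputable def opH {F E : Type*} [Field F] [Field E] [Algebra F E] {n : ℕ}
    (b : Basis (Fin (2 * n)) F (Fin n → E)) {W : Type*} [AddCommGroup W] [Module ℂ W]
    (π : Representation ℂ (GL (Fin (2 * n)) F) W) (h : GL (Fin n) E) : W →ₗ[ℂ] W :=
  π (emb b h)

/-- The character `χ ∘ det` of `GL_n(E)`, with complex values. -/
def chiDet {E : Type*} [Field E] {n : ℕ} (χ : Eˣ →* ℂˣ) (h : GL (Fin n) E) : ℂ :=
  (χ (Matrix.GeneralLinearGroup.det h) : ℂ)

/-- `ℓ(π(h) v) = χ(det h) ℓ(v)` for all `h ∈ H = GL_n(E)` and all `v`. -/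
def IsEquivariant {F E : Type*} [Field F] [Field E] [Algebra F E] {n : ℕ}
    (b : Basis (Fin (2 * n)) F (Fin n → E)) {W : Type*} [AddCommGroup W] [Module ℂ W]
    (π : Representation ℂ (GL (Fin (2 * n)) F) W) (χ : Eˣ →* ℂˣ) (ℓ : W →ₗ[ℂ] ℂ) : Prop :=
  ∀ (h : GL (Fin n) E) (v : W),
    ℓ (opH b π h v) = chiDet χ h * ℓ v

theorem isEquivariant_add {F E : Type*} [Field F] [Field E] [Algebra F E] {n : ℕ}
    (b : Basis (Fin (2 * n)) F (Fin n → E)) {W : Type*} [AddCommGroup W] [Module ℂ W]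
    (π : Representation ℂ (GL (Fin (2 * n)) F) W) (χ : Eˣ →* ℂˣ) {ℓ ℓ' : W →ₗ[ℂ] ℂ}
    (h1 : IsEquivariant b π χ ℓ) (h2 : IsEquivariant b π χ ℓ') :
    IsEquivariant b π χ (ℓ + ℓ') := by
  intro h v
  rw [LinearMap.add_apply, LinearMap.add_apply, h1, h2, mul_add]

theorem isEquivariant_zero {F E : Type*} [Field F] [Field E] [Algebra F E] {n : ℕ}
    (b : Basis (Fin (2 * n)) F (Fin n → E)) {W : Type*} [AddCommGroup W] [Module ℂ W]
    (π : Representation ℂ (GL (Fin (2 * n)) F) W) (χ : Eˣ →* ℂˣ) :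
    IsEquivariant b π χ 0 := by
  intro h v
  simp

theorem isEquivariant_smul {F E : Type*} [Field F] [Field E] [Algebra F E] {n : ℕ}
    (b : Basis (Fin (2 * n)) F (Fin n → E)) {W : Type*} [AddCommGroup W] [Module ℂ W]
    (π : Representation ℂ (GL (Fin (2 * n)) F) W) (χ : Eˣ →* ℂˣ) (c : ℂ) {ℓ : W →ₗ[ℂ] ℂ}
    (h1 : IsEquivariant b π χ ℓ) : IsEquivariant b π χ (c • ℓ) := by
  intro h v
  rw [LinearMap.smul_apply, LinearMap.smul_apply, h1, smul_eq_mul, smul_eq_mul]
  ring

/-- The space `Hom_H(π, χ ∘ det)` of linear maps `ℓ : π → ℂ` with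
`ℓ(π(h) v) = χ(det h) ℓ(v)` for all `h ∈ H = GL_n(E)` and all `v`. -/
def homSpace {F E : Type*} [Field F] [Field E] [Algebra F E] {n : ℕ}
    (b : Basis (Fin (2 * n)) F (Fin n → E)) {W : Type*} [AddCommGroup W] [Module ℂ W]
    (π : Representation ℂ (GL (Fin (2 * n)) F) W) (χ : Eˣ →* ℂˣ) :
    Submodule ℂ (W →ₗ[ℂ] ℂ) where
  carrier := {ℓ | IsEquivariant b π χ ℓ}
  add_mem' := isEquivariant_add b π χ
  zero_mem' := isEquivariant_zero b π χ
  smul_mem' := fun c _ h => isEquivariant_smul b π χ c h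

open Pool.Agent.Q2.TMO in
/-- Multiplicity one for twisted `GL_n(E)`-periods of `GL_{2n}(F)` over finite fields. -/
theorem result {F E : Type*} [Field F] [Finite F] [Field E] [Algebra F E]
    (hE : finrank F E = 2) (n : ℕ) (b : Basis (Fin (2 * n)) F (Fin n → E))
    {W : Type*} [AddCommGroup W] [Module ℂ W] [FiniteDimensional ℂ W]
    (π : Representation ℂ (GL (Fin (2 * n)) F) W) [Representation.IsIrreducible π]
    (χ : Eˣ →* ℂˣ) :
    finrank ℂ (homSpace b π χ) ≤ 1 := by
  classical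
  obtain ⟨σ, hσ, hσF, θ, hθ⟩ := exists_conj (F := F) (E := E) hE
  have hfd : Module.Finite F E := Module.finite_of_finrank_eq_succ hE
  have hEfin : Finite E := Module.finite_of_finite F
  have hex : ∀ M : Matrix (Fin (2 * n)) (Fin (2 * n)) F, ∃ A B : Matrix (Fin n) (Fin n) E,
      op σ hσF A B = Matrix.toLin b b M := fun M => op_surj hE θ hθ _
  choose pA pB hp using hex
  have uniq : ∀ (M : Matrix (Fin (2 * n)) (Fin (2 * n)) F) (A B : Matrix (Fin n) (Fin n) E),
      op σ hσF A B = Matrix.toLin b b M → pA M = A ∧ pB M = B := by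
    intro M A B h
    exact op_inj (hσF := hσF) θ hθ _ _ _ _ ((hp M).trans h.symm)
  have hmul : ∀ M N, pA (M * N) = pA M * pA N + pB M * (pB N).map σ ∧
      pB (M * N) = pA M * pB N + pB M * (pA N).map σ := by
    intro M N
    apply uniq
    rw [← op_mul hσ, hp, hp]
    rw [Matrix.toLin_mul b b b]
    rfl
  have hone : pA 1 = 1 ∧ pB 1 = 0 := by
    apply uniq
    rw [op_one, Matrix.toLin_one]
    rfl
  let st : Matrix (Fin (2 * n)) (Fin (2 * n)) F → Matrix (Fin (2 * n)) (Fin (2 * n)) F :=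
    fun M => LinearMap.toMatrix b b (op σ hσF (pA M)ᵀ ((pB M).map σ)ᵀ)
  have st_mul : ∀ M N, st (M * N) = st N * st M := by
    intro M N
    simp only [st]
    rw [← LinearMap.toMatrix_mul, op_mul hσ]
    congr 1
    obtain ⟨e1, e2⟩ := hmul M N
    rw [e1, e2]
    have m1 : ∀ X : Matrix (Fin n) (Fin n) E, (X.map σ).map σ = X := map_map_inv σ hσ
    have m2 : ∀ X Y : Matrix (Fin n) (Fin n) E, (X + Y).map σ = X.map σ + Y.map σ := by
      intro X Y
      exact Matrix.map_add _ (map_add σ) X Y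
    congr 1
    · rw [Matrix.transpose_add, Matrix.transpose_mul, Matrix.transpose_mul,
        Matrix.transpose_map (M := (pB M).map σ), m1]
    · rw [m2, Matrix.map_mul, Matrix.map_mul, m1, Matrix.transpose_add, Matrix.transpose_mul,
        Matrix.transpose_mul, Matrix.transpose_map (M := pA M), add_comm]
  have st_one : st 1 = 1 := by
    simp only [st]
    rw [hone.1, hone.2]
    have : ((0 : Matrix (Fin n) (Fin n) E).map σ)ᵀ = 0 := by
      ext i j
      simp
    rw [this, Matrix.transpose_one, op_one]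
    exact LinearMap.toMatrix_one b
  let stU : GL (Fin (2 * n)) F → GL (Fin (2 * n)) F := fun g =>
    ⟨st g.1, st (g⁻¹).1, by rw [← st_mul, ← Units.val_mul, inv_mul_cancel, Units.val_one, st_one],
      by rw [← st_mul, ← Units.val_mul, mul_inv_cancel, Units.val_one, st_one]⟩
  let stH : GL (Fin n) E → GL (Fin n) E := fun h =>
    ⟨(h.1)ᵀ, ((h⁻¹).1)ᵀ, by
      rw [← Matrix.transpose_mul, ← Units.val_mul, inv_mul_cancel, Units.val_one,
        Matrix.transpose_one],
      by rw [← Matrix.transpose_mul, ← Units.val_mul, mul_inv_cancel, Units.val_one,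
        Matrix.transpose_one]⟩
  have stHinv : ∀ h, stH (stH h) = h := by
    intro h
    apply Units.ext
    exact Matrix.transpose_transpose _
  have hemb : ∀ h : GL (Fin n) E, op σ hσF h.1 0 = Matrix.toLin b b (emb b h).1 := by
    intro h
    have h1 : (emb b h).1 = LinearMap.toMatrix b b ((Matrix.toLin' h.1).restrictScalars F) :=
      mat_eq b h.1
    rw [h1, Matrix.toLin_toMatrix]
    apply LinearMap.ext
    intro v
    rw [op_apply]
    simp
  let ψ : GL (Fin n) E →* ℂˣ := χ.comp Matrix.GeneralLinearGroup.det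
  refine gk (emb b) ψ stU ?_ ⟨stH, stH, stHinv, stHinv⟩ ?_ ?_ ?_ π (homSpace b π χ) ?_
  · intro g g'
    apply Units.ext
    exact st_mul g.1 g'.1
  · intro h
    apply Units.ext
    change st (emb b h).1 = (emb b (stH h)).1
    obtain ⟨e1, e2⟩ := uniq _ _ _ (hemb h)
    simp only [st]
    rw [e1, e2]
    have : ((0 : Matrix (Fin n) (Fin n) E).map σ)ᵀ = 0 := by
      ext i j
      simp
    rw [this]
    have h2 := hemb (stH h)
    have h3 : (stH h).1 = (h.1)ᵀ := rfl
    rw [h3] at h2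
    rw [h2, LinearMap.toMatrix_toLin]
  · intro h
    change χ (Matrix.GeneralLinearGroup.det (stH h)) = χ (Matrix.GeneralLinearGroup.det h)
    congr 1
    apply Units.ext
    exact Matrix.det_transpose h.1
  · intro g
    have hrel : Rel σ (pA g.1) (pB g.1) (pA (g⁻¹).1) (pB (g⁻¹).1) := by
      have h1 := hmul (g⁻¹).1 g.1
      have h2 := hmul g.1 (g⁻¹).1
      rw [← Units.val_mul, inv_mul_cancel, Units.val_one, hone.1, hone.2] at h1
      rw [← Units.val_mul, mul_inv_cancel, Units.val_one, hone.1, hone.2] at h2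
      exact ⟨h1.1.symm, h1.2.symm, h2.1.symm, h2.2.symm⟩
    obtain ⟨h1, h2, e1, e2, e3⟩ := good_of_rel (F := F) σ hσ hσF θ hθ n (Fin n)
      (Fintype.card_fin n) _ _ _ _ hrel
    rw [Matrix.det_mul] at e3
    have u1 : IsUnit h1.det := IsUnit.of_mul_eq_one _ e3
    have u2 : IsUnit h2.det := IsUnit.of_mul_eq_one h1.det (by rw [mul_comm]; exact e3)
    let a : GL (Fin n) E := Matrix.GeneralLinearGroup.mk'' h1 u1
    let c : GL (Fin n) E := Matrix.GeneralLinearGroup.mk'' h2 u2
    refine ⟨a, c, ?_, ?_⟩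
    · apply Units.ext
      change st g.1 = (emb b a).1 * g.1 * (emb b c).1
      apply (Matrix.toLin b b).injective
      have h3 : Matrix.toLin b b ((emb b a).1 * g.1 * (emb b c).1) =
          op σ hσF h1 0 * op σ hσF (pA g.1) (pB g.1) * op σ hσF h2 0 := by
        rw [Matrix.toLin_mul b b b, Matrix.toLin_mul b b b, ← hemb, ← hemb, ← hp g.1]
        rfl
      rw [h3, op_mul hσ, op_mul hσ]
      simp only [st]
      rw [Matrix.toLin_toMatrix, ← e1, ← e2]
      have hz : (0 : Matrix (Fin n) (Fin n) E).map σ = 0 := by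
        ext i j
        simp
      congr 1
      · rw [hz]
        simp
      · simp
    · change χ _ * χ _ = 1
      rw [← map_mul]
      have : Matrix.GeneralLinearGroup.det a * Matrix.GeneralLinearGroup.det c = 1 := by
        apply Units.ext
        exact e3
      rw [this, map_one]
  · intro ℓ hℓ h v
    exact hℓ h v

end Pool.Agent.Results.MP_ee6fb2_al.TwistedMultiplicityOne
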